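import Pool.Agent.W622.BK.Stm

set_option autoImplicit false

namespace Pool.Agent.W816.BK.B2

open Module Pool.Agent.W622.BK

universe u

section
variable {k : Type u} [Field k] {L : Type u} [LieRing L] [LieAlgebra k L]

theorem upd0 (x y z : L) : Function.update ![x, y] 0 z = ![z, y] := by
  funext i; fin_cases i <;> simp

theorem upd1 (x y z : L) : Function.update ![x, y] 1 z = ![x, z] := by
  funext i; fin_cases i <;> simp

/-- the bilinear map of an alternating map -/
noncomputable def bil (f : L [⋀^Fin 2]→ₗ[k] k) : L →ₗ[k] L →ₗ[k] k :=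
  LinearMap.mk₂ k (fun x y => f ![x, y])
    (fun x x' y => by
      have h := f.map_update_add ![x, y] 0 x x'
      rw [upd0, upd0, upd0] at h
      exact h)
    (fun c x y => by
      have h := f.map_update_smul ![x, y] 0 c x
      rw [upd0, upd0] at h
      exact h)
    (fun x y y' => by
      have h := f.map_update_add ![x, y] 1 y y'
      rw [upd1, upd1, upd1] at h
      exact h)
    (fun c x y => by
      have h := f.map_update_smul ![x, y] 1 c y
      rw [upd1, upd1] at h
      exact h)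

theorem bil_apply (f : L [⋀^Fin 2]→ₗ[k] k) (x y : L) : bil f x y = f ![x, y] := rfl

theorem bil_self (f : L [⋀^Fin 2]→ₗ[k] k) (x : L) : bil f x x = 0 := by
  rw [bil_apply]
  exact f.map_eq_zero_of_eq ![x, x] (i := 0) (j := 1) rfl (by decide)

theorem bil_swap (f : L [⋀^Fin 2]→ₗ[k] k) (x y : L) : bil f y x = - bil f x y := by
  have h := bil_self f (x + y)
  simp only [map_add, LinearMap.add_apply, bil_self] at h
  linear_combination h

theorem f_eq (f : L [⋀^Fin 2]→ₗ[k] k) (x : Fin 2 → L) : f x = bil f (x 0) (x 1) := by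
  rw [bil_apply]
  congr 1
  funext i
  fin_cases i <;> rfl

theorem f_cons (f : L [⋀^Fin 2]→ₗ[k] k) (a : L) (w : Fin 1 → L) :
    f (Fin.cons a w) = bil f a (w 0) := by
  rw [f_eq]
  rfl

theorem dCE2 (f : L [⋀^Fin 2]→ₗ[k] k) (x y z : L) :
    dCE k L f ![x, y, z] = -bil f ⁅x, y⁆ z + bil f ⁅x, z⁆ y - bil f ⁅y, z⁆ x := by
  have key : dCE k L f ![x, y, z] = ∑ i : Fin 3, ∑ j : Fin 2, if (i : ℕ) ≤ (j : ℕ) then
      (-1 : k) ^ ((i : ℕ) + (j : ℕ) + 1) *
        bil f ⁅(![x, y, z] : Fin 3 → L) i, (![x, y, z] : Fin 3 → L) j.succ⁆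
          ((![x, y, z] : Fin 3 → L) (i.succAbove (j.succAbove 0))) else 0 := by
    unfold dCE
    refine Finset.sum_congr rfl fun i _ => Finset.sum_congr rfl fun j _ => ?_
    rw [f_cons]
  rw [key, Fin.sum_univ_three, Fin.sum_univ_two, Fin.sum_univ_two, Fin.sum_univ_two]
  have s00 : (0 : Fin 3).succAbove ((0 : Fin 2).succAbove (0 : Fin 1)) = 2 := rfl
  have s01 : (0 : Fin 3).succAbove ((1 : Fin 2).succAbove (0 : Fin 1)) = 1 := rfl
  have s11 : (1 : Fin 3).succAbove ((1 : Fin 2).succAbove (0 : Fin 1)) = 0 := rfl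
  rw [s00, s01, s11]
  norm_num
  have h2 : (![x, y, z] : Fin 3 → L) 2 = z := rfl
  rw [h2, sub_eq_add_neg]

theorem dCE1 (g : L [⋀^Fin 1]→ₗ[k] k) (x : Fin 2 → L) :
    dCE k L g x = - g ![⁅x 0, x 1⁆] := by
  unfold dCE
  rw [Fin.sum_univ_two, Fin.sum_univ_one, Fin.sum_univ_one]
  have e : (Fin.cons ⁅x 0, x (0 : Fin 1).succ⁆
      (fun t : Fin 0 => x ((0 : Fin 2).succAbove ((0 : Fin 1).succAbove t))) : Fin 1 → L) =
      ![⁅x 0, x 1⁆] := by
    funext i
    fin_cases i
    rfl
  rw [e]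
  norm_num

end

section
variable {k : Type u} [Field k] {E : Type u} [AddCommGroup E] [Module k E] [FiniteDimensional k E]
variable {W : Type u} [AddCommGroup W] [Module k W]

/-- the value of a bilinear map on a tensor -/
noncomputable def TB (Bf : (E →ₗ[k] k) →ₗ[k] (E →ₗ[k] k) →ₗ[k] W) :
    (E →ₗ[k] E →ₗ[k] k) →ₗ[k] W :=
  ∑ l, (Bf ((finBasis k E).coord l)) ∘ₗ (LinearMap.applyₗ (finBasis k E l))

theorem TB_apply (Bf : (E →ₗ[k] k) →ₗ[k] (E →ₗ[k] k) →ₗ[k] W) (β : E →ₗ[k] E →ₗ[k] k) :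
    TB Bf β = ∑ l, Bf ((finBasis k E).coord l) (β (finBasis k E l)) := by
  unfold TB
  rw [LinearMap.sum_apply]
  rfl

theorem TB_tensor (Bf : (E →ₗ[k] k) →ₗ[k] (E →ₗ[k] k) →ₗ[k] W) (x y : E →ₗ[k] k) :
    TB Bf (x.smulRight y) = Bf x y := by
  rw [TB_apply]
  have h := (finBasis k E).sum_dual_apply_smul_coord x
  nth_rewrite 2 [← h]
  rw [map_sum, LinearMap.sum_apply]
  refine Finset.sum_congr rfl fun l _ => ?_
  rw [LinearMap.smulRight_apply, map_smul, map_smul, LinearMap.smul_apply]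

end

section
variable {k : Type u} [Field k] {L : Type u} [LieRing L] [LieAlgebra k L]
variable {E : Type u} [AddCommGroup E] [Module k E] [FiniteDimensional k E]

/-- the bracket as a bilinear map -/
noncomputable def brk (j : (E →ₗ[k] k) →ₗ[k] L) : (E →ₗ[k] k) →ₗ[k] (E →ₗ[k] k) →ₗ[k] L :=
  LinearMap.mk₂ k (fun x y => ⁅j x, j y⁆)
    (fun x x' y => by rw [map_add, add_lie])
    (fun c x y => by rw [map_smul, smul_lie])
    (fun x y y' => by rw [map_add, lie_add])
    (fun c x y => by rw [map_smul, lie_smul])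

theorem Br_eq (j : (E →ₗ[k] k) →ₗ[k] L) (β : E →ₗ[k] E →ₗ[k] k) : Br j β = TB (brk j) β := by
  rw [TB_apply]
  rfl

/-- the alternating tensor of a family -/
noncomputable def bt {m : ℕ} (x : Fin m → (E →ₗ[k] k)) (c : Fin m → Fin m → k) :
    E →ₗ[k] E →ₗ[k] k :=
  ∑ i, ∑ i', c i i' • ((x i).smulRight (x i') - (x i').smulRight (x i))

theorem TB_bt {W : Type u} [AddCommGroup W] [Module k W]
    (Bf : (E →ₗ[k] k) →ₗ[k] (E →ₗ[k] k) →ₗ[k] W) {m : ℕ}
    (x : Fin m → (E →ₗ[k] k)) (c : Fin m → Fin m → k) :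
    TB Bf (bt x c) = ∑ i, ∑ i', c i i' • (Bf (x i) (x i') - Bf (x i') (x i)) := by
  unfold bt
  rw [map_sum]
  refine Finset.sum_congr rfl fun i _ => ?_
  rw [map_sum]
  refine Finset.sum_congr rfl fun i' _ => ?_
  have h := (TB Bf).map_sub ((x i).smulRight (x i')) ((x i').smulRight (x i))
  rw [map_smul, h, TB_tensor, TB_tensor]

theorem bt_alt {m : ℕ} (x : Fin m → (E →ₗ[k] k)) (c : Fin m → Fin m → k) (e : E) :
    bt x c e e = 0 := by
  unfold bt
  rw [LinearMap.sum_apply, LinearMap.sum_apply]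
  refine Finset.sum_eq_zero fun i _ => ?_
  rw [LinearMap.sum_apply, LinearMap.sum_apply]
  refine Finset.sum_eq_zero fun i' _ => ?_
  simp only [LinearMap.smul_apply, LinearMap.sub_apply, LinearMap.smulRight_apply, smul_eq_mul]
  ring

/-- the bilinear form of a cocycle, pulled back -/
theorem phi_val (j : (E →ₗ[k] k) →ₗ[k] L) (f : L [⋀^Fin 2]→ₗ[k] k) (F : (Fin 2 → L) → k)
    (hF : ∀ x, F x = f x) (β : E →ₗ[k] E →ₗ[k] k) :
    ∑ i, F ![j ((finBasis k E).coord i), j (β (finBasis k E i))] =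
      TB ((bil f).compl₁₂ j j) β := by
  rw [TB_apply]
  refine Finset.sum_congr rfl fun i _ => ?_
  rw [hF]
  rfl

/-- the map to the dual of the relations -/
noncomputable def Phi (j : (E →ₗ[k] k) →ₗ[k] L) :
    cocycles k L 2 →ₗ[k] Module.Dual k (Rj j) where
  toFun F :=
    { toFun := fun β => ∑ i, F.1 ![j ((finBasis k E).coord i), j (β.1 (finBasis k E i))]
      map_add' := by
        intro β β'
        obtain ⟨f, hf, -⟩ := F.2
        rw [phi_val j f F.1 hf, phi_val j f F.1 hf, phi_val j f F.1 hf]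
        exact map_add _ _ _
      map_smul' := by
        intro c β
        obtain ⟨f, hf, -⟩ := F.2
        rw [phi_val j f F.1 hf, phi_val j f F.1 hf]
        exact map_smul _ _ _ }
  map_add' := by
    intro F F'
    refine LinearMap.ext fun β => ?_
    show ∑ i, (F.1 ![j ((finBasis k E).coord i), j (β.1 (finBasis k E i))] +
      F'.1 ![j ((finBasis k E).coord i), j (β.1 (finBasis k E i))]) = _
    exact Finset.sum_add_distrib
  map_smul' := by
    intro c F
    refine LinearMap.ext fun β => ?_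
    show ∑ i, (c * F.1 ![j ((finBasis k E).coord i), j (β.1 (finBasis k E i))]) =
      c * ∑ i, F.1 ![j ((finBasis k E).coord i), j (β.1 (finBasis k E i))]
    rw [Finset.mul_sum]

end

theorem dfr {k : Type u} [Field k] (V : Type u) [AddCommMonoid V] [Module k V]
    [Module.Finite k V] :
    Module.Finite k (Module.Dual k V) ∧ finrank k (Module.Dual k V) = finrank k V := by
  let _ : AddCommGroup V := Module.addCommMonoidToAddCommGroup k
  exact ⟨inferInstance, Subspace.dual_finrank_eq⟩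

theorem t_B2 : Pool.Agent.W622.BK.S_B2.{u} := by
  intro hA k _ L _ _ E _ _ _ j h2 hj hspan hquad
  have hker : LinearMap.ker (Phi (k := k) (L := L) (E := E) j) ≤
      (coboundaries k L 2).comap (cocycles k L 2).subtype := by
    intro F hF
    rw [LinearMap.mem_ker] at hF
    obtain ⟨f, hf, hf'⟩ := F.2
    have hcoc : ∀ x y z, bil f ⁅x, y⁆ z + bil f ⁅y, z⁆ x + bil f ⁅z, x⁆ y = 0 := by
      intro x y z
      have h := hf' ![x, y, z]
      rw [dCE2] at h
      have h3 : bil f ⁅z, x⁆ y = - bil f ⁅x, z⁆ y := by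
        rw [← lie_skew, map_neg, LinearMap.neg_apply]
      rw [h3]
      linear_combination -h
    have hrel : ∀ (m : ℕ) (v : Fin m → L) (c : Fin m → Fin m → k),
        (∀ i, v i ∈ LinearMap.range j) →
        ∑ i, ∑ i', c i i' • ⁅v i, v i'⁆ = 0 → ∑ i, ∑ i', c i i' * bil f (v i) (v i') = 0 := by
      intro m v c hv hc
      choose x hx using hv
      have hB : bt x c ∈ Rj j := by
        refine ⟨bt_alt x c, ?_⟩
        rw [Br_eq, TB_bt]
        have e1 : ∀ i i', c i i' • (brk j (x i) (x i') - brk j (x i') (x i)) =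
            (2 : k) • (c i i' • ⁅v i, v i'⁆) := by
          intro i i'
          have e2 : brk j (x i) (x i') = ⁅v i, v i'⁆ := by
            show ⁅j (x i), j (x i')⁆ = _
            rw [hx, hx]
          have e3 : brk j (x i') (x i) = - ⁅v i, v i'⁆ := by
            show ⁅j (x i'), j (x i)⁆ = _
            rw [hx, hx, lie_skew]
          rw [e2, e3, sub_neg_eq_add, ← two_smul k, smul_comm]
        simp only [e1]
        rw [← Finset.sum_congr rfl (fun i _ => Finset.smul_sum), ← Finset.smul_sum, hc, smul_zero]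
      have hφ : (Phi j F) ⟨bt x c, hB⟩ = 0 := by
        rw [hF]
        rfl
      have hφ2 : (Phi j F) ⟨bt x c, hB⟩ = TB ((bil f).compl₁₂ j j) (bt x c) :=
        phi_val j f F.1 hf (bt x c)
      rw [hφ2, TB_bt] at hφ
      have e1 : ∀ i i', c i i' • (((bil f).compl₁₂ j j) (x i) (x i') -
          ((bil f).compl₁₂ j j) (x i') (x i)) = 2 * (c i i' * bil f (v i) (v i')) := by
        intro i i'
        have e2 : ((bil f).compl₁₂ j j) (x i) (x i') = bil f (v i) (v i') := by
          rw [LinearMap.compl₁₂_apply, hx, hx]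
        have e3 : ((bil f).compl₁₂ j j) (x i') (x i) = - bil f (v i) (v i') := by
          rw [LinearMap.compl₁₂_apply, hx, hx, bil_swap]
        rw [e2, e3, smul_eq_mul]
        ring
      simp only [e1] at hφ
      rw [← Finset.sum_congr rfl (fun i _ => Finset.mul_sum _ _ _), ← Finset.mul_sum] at hφ
      exact (mul_eq_zero.1 hφ).resolve_left h2
    obtain ⟨g, hg⟩ := hA k L (LinearMap.range j) hspan hquad (bil f) (bil_self f) hcoc hrel
    refine ⟨AlternatingMap.ofSubsingleton k L k (0 : Fin 1) (-g), fun x => ?_⟩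
    rw [dCE1]
    show F.1 x = _
    rw [hf x, f_eq, hg]
    show g ⁅x 0, x 1⁆ = - ((-g) ⁅x 0, x 1⁆)
    rw [LinearMap.neg_apply, neg_neg]
  -- dimensions
  obtain ⟨hD, hD'⟩ := dfr (k := k) (Rj j)
  have hfin : Module.Finite k (cocycles k L 2 ⧸ LinearMap.ker (Phi (k := k) (L := L) (E := E) j)) :=
    Module.Finite.equiv (LinearMap.quotKerEquivRange (Phi j)).symm
  have h1 : betti k L 2 ≤
      finrank k (cocycles k L 2 ⧸ LinearMap.ker (Phi (k := k) (L := L) (E := E) j)) :=
    LinearMap.finrank_le_finrank_of_surjective (f := Submodule.factor hker)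
      (Submodule.factor_surjective hker)
  have h3 : finrank k (cocycles k L 2 ⧸ LinearMap.ker (Phi (k := k) (L := L) (E := E) j)) =
      finrank k (LinearMap.range (Phi (k := k) (L := L) (E := E) j)) :=
    (LinearMap.quotKerEquivRange (Phi j)).finrank_eq
  have h4 : finrank k (LinearMap.range (Phi (k := k) (L := L) (E := E) j)) ≤
      finrank k (Module.Dual k (Rj j)) := Submodule.finrank_le _
  omega

end Pool.Agent.W816.BK.B2
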